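import Pool.Agent.W747.MB.Defs

/-! MB-LOW: at a non-hyperbolic parameter `A j` is not small and `X (j + 1)` is not very small. -/

set_option autoImplicit false

open Metric MeasureTheory Set

namespace Pool.Agent.W12.MB

open Pool.Agent.W747.MB

theorem norm_X (n : ℕ) (c : ℂ) (j : ℕ) : ‖X n c (j + 1)‖ = Y n c * ‖A n c j‖ ^ n := by
  rw [X, Y, A, norm_mul, norm_mul, norm_pow, norm_pow, Complex.norm_natCast]

theorem log_small {n : ℕ} (hn : 10 ^ 6 ≤ n) {D : ℝ} (hlog : Real.log D ^ 4 ≤ 3 * n) :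
    Real.log D ≤ n / 1000 := by
  have hn' : (10 : ℝ) ^ 6 ≤ n := by exact_mod_cast hn
  by_contra hne
  push Not at hne
  have h0 : (0 : ℝ) ≤ n / 1000 := by positivity
  have h1 : ((n : ℝ) / 1000) ^ 4 ≤ Real.log D ^ 4 := pow_le_pow_left₀ h0 hne.le 4
  have h2 : ((n : ℝ) / 1000) ^ 4 = n * (n ^ 3 / 10 ^ 12) := by ring
  have h3 : ((10 : ℝ) ^ 6) ^ 3 ≤ (n : ℝ) ^ 3 := pow_le_pow_left₀ (by norm_num) hn' 3
  have h4 : (4 : ℝ) ≤ (n : ℝ) ^ 3 / 10 ^ 12 := by
    rw [le_div_iff₀ (by norm_num)]
    linarith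
  have h5 : (n : ℝ) * 4 ≤ n * (n ^ 3 / 10 ^ 12) := mul_le_mul_of_nonneg_left h4 (by positivity)
  have h6 : (0 : ℝ) < n := by linarith
  linarith

theorem log80 {n : ℕ} (hn : 10 ^ 6 ≤ n) : Real.log (80 * n) ≤ 57 + n / 100 := by
  have hn' : (10 : ℝ) ^ 6 ≤ n := by exact_mod_cast hn
  have h0 : (0 : ℝ) < n := by linarith
  have e : (80 : ℝ) * n = 20 * (20 * (20 * (n / 100))) := by ring
  rw [e, Real.log_mul (by norm_num) (by positivity), Real.log_mul (by norm_num) (by positivity),
    Real.log_mul (by norm_num) (by positivity)]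
  have h1 := Real.log_le_sub_one_of_pos (show (0 : ℝ) < 20 by norm_num)
  have h2 := Real.log_le_sub_one_of_pos (show (0 : ℝ) < n / 100 by positivity)
  linarith

theorem main (hA : P_ATT) (hL : P_ALV) : P_LOW := by
  intro n hn c j D hc hD hPh hlog
  have hn' : (10 : ℝ) ^ 6 ≤ n := by exact_mod_cast hn
  have hn0 : (0 : ℝ) < n := by linarith
  have hcast : ((n - 1 : ℕ) : ℝ) = n - 1 := by
    rw [Nat.cast_sub (by omega)]
    simp
  obtain ⟨hY1, hY2, hX⟩ := hL n hn c hc
  have hnot : c ∉ hyp n := hc.2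
  obtain ⟨a, ha⟩ : ∃ a, a = ‖A n c j‖ := ⟨_, rfl⟩
  have ha0 : 0 ≤ a := by rw [ha]; exact norm_nonneg _
  have hX1 := norm_X n c j
  rw [← ha] at hX1 ⊢
  have hD0 : 0 < D := by linarith
  have h1 : 1 / (40 * D) < Y n c * (a + 1 / (10 * n)) ^ (n - 1) := by
    by_contra h
    push Not at h
    rw [ha] at h
    exact hnot (hA n (by omega) c j D (by linarith) hD hPh h)
  have hl := log_small hn hlog
  have hl0 : 0 ≤ Real.log D := Real.log_nonneg hD
  have h80 := log80 hn
  have hsmall : 1 / (10 * (n : ℝ)) ≤ 1 / 10 ^ 7 := by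
    apply one_div_le_one_div_of_le (by norm_num)
    linarith
  have hlow : 98 / 100 ≤ a := by
    by_contra hne
    push Not at hne
    have h2 : a + 1 / (10 * (n : ℝ)) ≤ 981 / 1000 := by
      have : (98 : ℝ) / 100 + 1 / 10 ^ 7 ≤ 981 / 1000 := by norm_num
      linarith
    have h3 : (a + 1 / (10 * (n : ℝ))) ^ (n - 1) ≤ Real.exp (-(19 / 1000) * (n - 1)) := by
      calc (a + 1 / (10 * (n : ℝ))) ^ (n - 1) ≤ (Real.exp (-(19 / 1000))) ^ (n - 1) := by
            apply pow_le_pow_left₀ (by positivity)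
            have := Real.add_one_le_exp (-(19 / 1000) : ℝ)
            linarith
        _ = _ := by
            rw [← Real.exp_nat_mul, hcast]
            ring_nf
    have h4 : 1 / (40 * D) < 2 * n * Real.exp (-(19 / 1000) * (n - 1)) := by
      refine h1.trans_le ?_
      exact mul_le_mul hY2 h3 (by positivity) (by positivity)
    have h5 : 1 < Real.exp (Real.log (80 * n) + Real.log D + (-(19 / 1000) * (n - 1))) := by
      rw [Real.exp_add, Real.exp_add, Real.exp_log (by positivity), Real.exp_log hD0]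
      rw [div_lt_iff₀ (by positivity)] at h4
      linarith
    have h6 : 0 < Real.log (80 * n) + Real.log D + (-(19 / 1000) * (n - 1)) := by
      exact Real.exp_lt_exp.mp (by rw [Real.exp_zero]; exact h5)
    linarith
  refine ⟨hlow, ?_, ?_⟩
  · -- upper bound
    by_contra hne
    push Not at hne
    have h2 : Y n c * a ^ n ≤ 3 * n := by rw [← hX1]; exact hX (j + 1)
    have h3 : a ^ n ≤ 9 * n := by
      have h4 : (1 / 3) * a ^ n ≤ Y n c * a ^ n := mul_le_mul_of_nonneg_right hY1 (by positivity)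
      linarith
    obtain ⟨m, hm⟩ : ∃ m, m = n / 2 := ⟨_, rfl⟩
    have hm2 : 2 * m ≤ n := by omega
    have hm3 : n ≤ 2 * m + 1 := by omega
    have h4 : (1 + (m : ℝ) * (1 / 100)) ≤ (101 / 100 : ℝ) ^ m := by
      have := one_add_mul_le_pow (show (-2 : ℝ) ≤ 1 / 100 by norm_num) m
      have e : (1 : ℝ) + 1 / 100 = 101 / 100 := by norm_num
      rwa [e] at this
    have h5 : (101 / 100 : ℝ) ^ (2 * m) ≤ a ^ n := by
      calc (101 / 100 : ℝ) ^ (2 * m) ≤ (101 / 100 : ℝ) ^ n := pow_le_pow_right₀ (by norm_num) hm2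
        _ ≤ a ^ n := pow_le_pow_left₀ (by norm_num) hne.le n
    have h6 : (1 + (m : ℝ) * (1 / 100)) ^ 2 ≤ (101 / 100 : ℝ) ^ (2 * m) := by
      rw [mul_comm 2 m, pow_mul]
      exact pow_le_pow_left₀ (by positivity) h4 2
    have h7 : (n : ℝ) ≤ 2 * m + 1 := by exact_mod_cast hm3
    nlinarith
  · -- lower bound for `X`
    rw [hX1]
    have ha1 : 0 < a := by linarith
    have hYpos : 0 < Y n c := by linarith
    have h2 : a + 1 / (10 * (n : ℝ)) = a * (1 + 1 / (10 * n * a)) := by
      field_simp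
    have h3 : (1 + 1 / (10 * (n : ℝ) * a)) ^ (n - 1) ≤ Real.exp (103 / 1000) := by
      calc (1 + 1 / (10 * (n : ℝ) * a)) ^ (n - 1) ≤ (Real.exp (1 / (10 * (n : ℝ) * a))) ^ (n - 1) := by
            apply pow_le_pow_left₀ (by positivity)
            have := Real.add_one_le_exp (1 / (10 * (n : ℝ) * a))
            linarith
        _ = Real.exp (((n : ℝ) - 1) * (1 / (10 * (n : ℝ) * a))) := by
            rw [← Real.exp_nat_mul, hcast]
        _ ≤ Real.exp (103 / 1000) := by
            apply Real.exp_le_exp.mpr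
            rw [mul_one_div, div_le_iff₀ (by positivity)]
            nlinarith
    have h4 : 1 / (40 * D) < Y n c * (a ^ (n - 1) * Real.exp (103 / 1000)) := by
      refine h1.trans_le ?_
      rw [h2, mul_pow]
      apply mul_le_mul_of_nonneg_left _ hYpos.le
      exact mul_le_mul_of_nonneg_left h3 (by positivity)
    have h5 : a ^ n = a ^ (n - 1) * a := by
      rw [← pow_succ]
      congr 1
      omega
    have h6 : Real.exp (-(4 + Real.log D)) ≤ Y n c * a ^ n := by
      rw [neg_add, Real.exp_add, Real.exp_neg (Real.log D), Real.exp_log hD0, h5]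
      have h7 : 1 / (40 * D) * Real.exp (-(103 / 1000)) ≤ Y n c * a ^ (n - 1) := by
        have := mul_le_mul_of_nonneg_right h4.le (Real.exp_pos (-(103 / 1000))).le
        refine this.trans (le_of_eq ?_)
        rw [mul_assoc, mul_assoc, ← Real.exp_add, add_neg_cancel, Real.exp_zero, mul_one]
      have h8 : (897 : ℝ) / 1000 ≤ Real.exp (-(103 / 1000)) := by
        have := Real.add_one_le_exp (-(103 / 1000) : ℝ)
        linarith
      have h9 : Real.exp (-4) ≤ 1 / 50 := by
        rw [Real.exp_neg, ← one_div]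
        apply one_div_le_one_div_of_le (by norm_num)
        have e : Real.exp 4 = Real.exp 1 ^ 4 := by
          rw [← Real.exp_nat_mul]
          norm_num
        rw [e]
        have := Real.exp_one_gt_d9
        calc (50 : ℝ) ≤ 2.7182818283 ^ 4 := by norm_num
          _ ≤ Real.exp 1 ^ 4 := pow_le_pow_left₀ (by norm_num) this.le 4
      calc Real.exp (-4) * D⁻¹ ≤ 1 / 50 * D⁻¹ := mul_le_mul_of_nonneg_right h9 (by positivity)
        _ ≤ (1 / (40 * D) * (897 / 1000)) * (98 / 100) := by
            rw [one_div_mul_eq_div, one_div_mul_eq_div]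
            field_simp
            norm_num
        _ ≤ (1 / (40 * D) * Real.exp (-(103 / 1000))) * a := by
            apply mul_le_mul _ hlow (by norm_num) (by positivity)
            exact mul_le_mul_of_nonneg_left h8 (by positivity)
        _ ≤ (Y n c * a ^ (n - 1)) * a := mul_le_mul_of_nonneg_right h7 ha0
        _ = Y n c * (a ^ (n - 1) * a) := by ring
    have h10 := Real.log_le_log (Real.exp_pos _) h6
    rwa [Real.log_exp] at h10

end Pool.Agent.W12.MB
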